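import Pool.Agent.K7.H90.AS.Main
import Pool.Agent.K7.H89.BS.E
import Pool.Agent.K7.H89.CL.D
import Pool.Agent.K7.H23.AT.PC
import Pool.Agent.K7.H23.AT.SF
import Pool.Agent.K7.H23.AT.Fin

/-!
# The uniform bound holds for almost all quadratic twists

For every `n ≥ 3` there is a number `M` such that for every `f ∈ ℤ[X]` of degree `n` without repeated
roots, irreducible over `ℚ` if `n ≤ 4`, and for all integers `D` outside a set of density zero all
integral points of the quadratic twist of `y² = f(x)` by `D` satisfy `|x| ≤ |D| ^ M`: the set of the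
`D` for which `y² = D f(x)` has an integral point with `|x| > |D| ^ M` has density zero, and so has,
if `n` is odd, the set of the `D` for which `y² = Dⁿ f(x / D)` has such a point. The largest
coefficient of `D f(x)`, and that of `Dⁿ f(x / D)`, is at least `|D|` in absolute value, so this is
the bound of Q1, with constants which depend only on the degree, for 100% of the twists of every
curve.

(helper23, helper89, helper90.)
-/

set_option autoImplicit false

namespace Pool.Agent.Results.MP_d88658_nt.AlmostAllTwists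

open Polynomial Filter Topology

/-- The set `A` of integers has density zero: the number of the elements of `A` of absolute value at
most `N` divided by `N` tends to zero. -/
def DensityZero (A : Set ℤ) : Prop :=
  Tendsto (fun N : ℕ => (Set.ncard {D : ℤ | D ∈ A ∧ |D| ≤ N} : ℝ) / N) atTop (𝓝 0)

/-- The integers `D ≠ 0` such that the quadratic twist
`y² = Dⁿ f(x / D) = ∑ aᵢ D^(n - i) xⁱ`, where `f = ∑ aᵢ Xⁱ` has degree `n`, of `y² = f(x)` has an
integral point with `|x| > |D| ^ M`. -/
def Large (f : ℤ[X]) (M : ℕ) : Set ℤ :=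
  {D : ℤ | D ≠ 0 ∧ ∃ x y : ℤ, y ^ 2 = ∑ i ∈ Finset.range (f.natDegree + 1),
    f.coeff i * D ^ (f.natDegree - i) * x ^ i ∧ |D| ^ M < |x|}

/-- The integers `D ≠ 0` such that the curve `y² = D f(x)` has an integral point with
`|x| > |D| ^ M`. -/
def Large' (f : ℤ[X]) (M : ℕ) : Set ℤ :=
  {D : ℤ | D ≠ 0 ∧ ∃ x y : ℤ, y ^ 2 = D * f.eval x ∧ |D| ^ M < |x|}

/-- **The uniform bound holds for almost all quadratic twists.** -/
theorem result (n : ℕ) (hn : 3 ≤ n) : ∃ M : ℕ, ∀ f : ℤ[X], f.natDegree = n →
    (f.map (Int.castRingHom ℚ)).Separable →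
    (5 ≤ n ∨ Irreducible (f.map (Int.castRingHom ℚ))) →
    (Odd n → DensityZero (Large f M)) ∧ DensityZero (Large' f M) := by
  obtain ⟨M, hM⟩ := Pool.Agent.K7.H23.AT.families Pool.Agent.K7.H90.AS.stAG
    (Pool.Agent.K7.H89.BS.bg2 (Pool.Agent.K7.H23.AT.pc Pool.Agent.K7.H89.CL.stCL)
      Pool.Agent.K7.H23.AT.sf) n hn
  refine ⟨M, fun f hdeg hsep hcase => ?_⟩
  obtain ⟨h1, h2⟩ := hM f hdeg hsep hcase
  refine ⟨fun hodd => ?_, h2.tendsto⟩
  have h3 := (h1 hodd).tendsto
  have h4 : Pool.Agent.K7.H23.AT.Exc f M = Large f M := by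
    unfold Pool.Agent.K7.H23.AT.Exc Large
    simp only [Pool.Agent.K7.H23.AT.eval_scale]
  rw [h4] at h3
  exact h3

end Pool.Agent.Results.MP_d88658_nt.AlmostAllTwists
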