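import Pool.Agent.K7.H69.HY.T
import Pool.Agent.Y396.FC.SG
import Pool.Agent.Y525.FC.INT
import Pool.Agent.Y907.FC.FLIP
import Pool.Agent.Y396.FC.IRR
import Pool.Agent.Y79.FT.PL
import Pool.Agent.Y876.FC.GEN
import Pool.Agent.Y774.FT.EV

/-!
# The uniform height bound up to a bounded number of points in each class with a small representative

Let `f` be an integral polynomial of degree `d` without repeated roots whose coefficients have
absolute value at most `H`, and let `g` be a factor of `f` of degree at least three (for instance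
`g = f`, if `d ≥ 3`). An integer `x` has a class in the algebra `ℚ[T] / (g)` modulo squares and
modulo `ℚ`, the class of `x - T` (the `x - T` map of the 2-descent). We prove, with `M` and `N`
depending only on `d`:

1. If the class is given by `D` in `ℚ[T]` whose values at the roots of `g` are algebraic integers
   different from zero with absolute value at most `H`, then it contains at most `N` integers `x`
   with `|x| > (2H)^M`.
2. If `x₀` is an integer with `|x₀| ≤ H`, `g(x₀) ≠ 0`, then there are at most `N` integers `x`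
   with `|x| > (2H)^M` such that `b (x₀ - T) (x - T)` is a square in `ℚ[T] / (g)` for some integer
   `b ≠ 0`.

So the bound `h(x) ≤ C₁(d) h(f) + C₂(d)` of the problem holds for the integral points of
`b y² = f(x)`, for all `b` together, in each class of the 2-descent which contains a point of small
height, with at most `N(d)` exceptions. If `d` is odd, `g = f` and `P₀ = (x₀, y₀)` is a point of
`b y² = f(x)`, `|x₀| ≤ H`, `y₀ ≠ 0`, then the points `P = (x, y)` of this curve with `P - P₀` in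
`2 J(ℚ)`, `J` the Jacobian, satisfy the condition in 2. 

The proof is based on the library results on large integral points on plane curves
(`Pool.Agent.Y910`, subspace theorem).
-/

open Polynomial

set_option autoImplicit false

namespace Pool.Agent.Results.MP_d88658_nt.FewLargePoints

open Pool.Agent.Y910.F

/-- the first part, for polynomials `g` of degree `e` -/
lemma first (e : ℕ) : ∃ M N : ℕ, 3 ≤ e → ∀ (H : ℕ) (g : ℤ[X]) (D : ℚ[X])
    (s : Finset ℤ), 1 ≤ H → g.natDegree = e → (g.map (Int.castRingHom ℚ)).Separable →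
    (∀ i, |g.coeff i| ≤ H) →
    (∀ θ : ℂ, aeval θ g = 0 → IsIntegral ℤ (aeval θ D) ∧ aeval θ D ≠ 0 ∧ ‖aeval θ D‖ ≤ H) →
    (∀ x ∈ s, (2 * H : ℤ) ^ M < |x| ∧ ∃ b : ℤ, b ≠ 0 ∧
      ∃ B : ℚ[X], g.map (Int.castRingHom ℚ) ∣ B ^ 2 - C (b : ℚ) * D * (C (x : ℚ) - X)) →
    s.card ≤ N := by
  by_cases he : 3 ≤ e
  · obtain ⟨M, N, h⟩ := Pool.Agent.K7.H69.HY.frameT Pool.Agent.Y396.FC.SG.done
      (Pool.Agent.Y525.FC.done Pool.Agent.Y396.FC.SG.done) Pool.Agent.Y907.FC.FLIP.done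
      Pool.Agent.Y396.FC.IRR.done Pool.Agent.Y79.FT.done Pool.Agent.Y876.FC.done
      Pool.Agent.Y774.FT.done e he
    exact ⟨M, N, fun _ => h⟩
  · exact ⟨0, 0, fun h => absurd h he⟩

/-- **Each class of the 2-descent with a small representative contains a bounded number of large
integral points, for all the quadratic twists together.** -/
theorem result (d : ℕ) : ∃ M N : ℕ, ∀ (H : ℕ) (f g : ℤ[X]), 1 ≤ H → f.natDegree = d →
    (f.map (Int.castRingHom ℚ)).Separable → (∀ i, |f.coeff i| ≤ H) → g ∣ f → 3 ≤ g.natDegree →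
    (∀ D : ℚ[X], (∀ θ : ℂ, aeval θ g = 0 →
        IsIntegral ℤ (aeval θ D) ∧ aeval θ D ≠ 0 ∧ ‖aeval θ D‖ ≤ H) →
      ∀ s : Finset ℤ, (∀ x ∈ s, (2 * H : ℤ) ^ M < |x| ∧ ∃ b : ℤ, b ≠ 0 ∧
        IsSquare (AdjoinRoot.mk (g.map (Int.castRingHom ℚ)) (C (b : ℚ) * D * (C (x : ℚ) - X)))) →
      s.card ≤ N) ∧
    (∀ x₀ : ℤ, |x₀| ≤ H → g.eval x₀ ≠ 0 →
      ∀ s : Finset ℤ, (∀ x ∈ s, (2 * H : ℤ) ^ M < |x| ∧ ∃ b : ℤ, b ≠ 0 ∧
        IsSquare (AdjoinRoot.mk (g.map (Int.castRingHom ℚ))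
          (C (b : ℚ) * (C (x₀ : ℚ) - X) * (C (x : ℚ) - X)))) →
      s.card ≤ N) := by
  classical
  choose M N hMN using first
  obtain ⟨M0, hM0⟩ : ∃ M0, M0 = ∑ e ∈ Finset.range (d + 1), M e := ⟨_, rfl⟩
  obtain ⟨N0, hN0⟩ : ∃ N0, N0 = ∑ e ∈ Finset.range (d + 1), N e := ⟨_, rfl⟩
  -- the constant with which `H` is multiplied
  obtain ⟨W, hW⟩ : ∃ W : ℕ, W = 4 * (2 ^ d * (d + 1)) ^ 2 := ⟨_, rfl⟩
  have hW1 : 1 ≤ W := by
    rw [hW]
    exact Nat.one_le_iff_ne_zero.2 (by positivity)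
  obtain ⟨Q, hQ⟩ : ∃ Q : ℕ, W ≤ 2 ^ Q := ⟨W, (Nat.lt_two_pow_self).le⟩
  refine ⟨(Q + 2) * (M0 + 1), N0, ?_⟩
  intro H f g hH hd hsep hcoef hgf hg3
  have hf0 : f ≠ 0 := by
    rintro rfl
    rw [Polynomial.map_zero] at hsep
    exact not_separable_zero hsep
  have hgd : g.natDegree ≤ d := by
    rw [← hd]; exact natDegree_le_of_dvd hgf hf0
  have hg0 : g ≠ 0 := by
    rintro rfl
    rw [natDegree_zero] at hg3
    omega
  have hgs : (g.map (Int.castRingHom ℚ)).Separable :=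
    hsep.of_dvd (Polynomial.map_dvd _ hgf)
  have hmem : g.natDegree ∈ Finset.range (d + 1) := Finset.mem_range.2 (by omega)
  have hMe : M g.natDegree ≤ M0 := by
    rw [hM0]
    exact Finset.single_le_sum (f := M) (fun _ _ => Nat.zero_le _) hmem
  have hNe : N g.natDegree ≤ N0 := by
    rw [hN0]
    exact Finset.single_le_sum (f := N) (fun _ _ => Nat.zero_le _) hmem
  -- the bound for the coefficients of the factor
  obtain ⟨H1, hH1⟩ : ∃ H1 : ℕ, H1 = 2 ^ d * ((d + 1) * H) := ⟨_, rfl⟩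
  have hHH1 : H ≤ H1 := by
    rw [hH1]
    calc H = 1 * (1 * H) := by ring
      _ ≤ 2 ^ d * ((d + 1) * H) := Nat.mul_le_mul Nat.one_le_two_pow
          (Nat.mul_le_mul_right _ (by omega))
  obtain ⟨H2, hH2⟩ : ∃ H2 : ℕ, H2 = 4 * H1 ^ 2 := ⟨_, rfl⟩
  have hH1H2 : H1 ≤ H2 := by
    rw [hH2]
    nlinarith [Nat.zero_le H1, Nat.le_self_pow (n := 2) (by norm_num) H1]
  have hgc : ∀ i, |g.coeff i| ≤ (H1 : ℤ) := fun i => by
    rw [hH1]; exact factor_bound d H f g hd hf0 hcoef hgf i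
  have hgc2 : ∀ i, |g.coeff i| ≤ (H2 : ℤ) := fun i => (hgc i).trans (by exact_mod_cast hH1H2)
  -- comparison of the constants
  have hpow : (2 * H2 : ℤ) ^ M g.natDegree ≤ (2 * H : ℤ) ^ ((Q + 2) * (M0 + 1)) := by
    have h1 : 2 * H2 ≤ (2 * H) ^ (Q + 2) := by
      have h2 : 2 * H2 = W * (2 * H ^ 2) := by
        rw [hH2, hH1, hW]; ring
      rw [h2, pow_add]
      refine Nat.mul_le_mul (hQ.trans ?_) ?_
      · exact Nat.pow_le_pow_left (by omega) _
      · nlinarith [Nat.zero_le H]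
    have h2 : (2 * H2) ^ M g.natDegree ≤ (2 * H) ^ ((Q + 2) * (M0 + 1)) := by
      calc (2 * H2) ^ M g.natDegree ≤ ((2 * H) ^ (Q + 2)) ^ M g.natDegree :=
            Nat.pow_le_pow_left h1 _
        _ = (2 * H) ^ ((Q + 2) * M g.natDegree) := (pow_mul _ _ _).symm
        _ ≤ _ := Nat.pow_le_pow_right (by omega) (Nat.mul_le_mul_left _ (by omega))
    exact_mod_cast h2
  have hH2' : 1 ≤ H2 := by omega
  have main : ∀ D : ℚ[X], (∀ θ : ℂ, aeval θ g = 0 →
        IsIntegral ℤ (aeval θ D) ∧ aeval θ D ≠ 0 ∧ ‖aeval θ D‖ ≤ H2) →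
      ∀ s : Finset ℤ, (∀ x ∈ s, (2 * H : ℤ) ^ ((Q + 2) * (M0 + 1)) < |x| ∧ ∃ b : ℤ, b ≠ 0 ∧
        IsSquare (AdjoinRoot.mk (g.map (Int.castRingHom ℚ)) (C (b : ℚ) * D * (C (x : ℚ) - X)))) →
      s.card ≤ N0 := by
    intro D hD s hs
    refine (hMN g.natDegree hg3 H2 g D s hH2' rfl hgs hgc2 hD ?_).trans hNe
    intro x hx
    obtain ⟨h1, b, hb, r, hr⟩ := hs x hx
    refine ⟨lt_of_le_of_lt hpow h1, b, hb, ?_⟩
    obtain ⟨B, rfl⟩ := AdjoinRoot.mk_surjective r
    refine ⟨B, ?_⟩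
    rw [← AdjoinRoot.mk_eq_mk, hr, ← map_mul, sq]
  refine ⟨?_, ?_⟩
  · intro D hD s hs
    refine main D (fun θ hθ => ?_) s hs
    obtain ⟨h1, h2, h3⟩ := hD θ hθ
    exact ⟨h1, h2, h3.trans (by exact_mod_cast hHH1.trans hH1H2)⟩
  · intro x₀ hx₀ hgx s hs
    have hlc : g.leadingCoeff ≠ 0 := leadingCoeff_ne_zero.2 hg0
    refine main (C (g.leadingCoeff : ℚ) * (C (x₀ : ℚ) - X)) (fun θ hθ => ?_) s ?_
    · have hval : aeval θ (C (g.leadingCoeff : ℚ) * (C (x₀ : ℚ) - X)) =
          (g.leadingCoeff : ℂ) * ((x₀ : ℂ) - θ) := by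
        simp
      rw [hval]
      refine ⟨?_, ?_, ?_⟩
      · rw [mul_sub]
        refine IsIntegral.sub ?_ ?_
        · have : ((g.leadingCoeff : ℂ) * (x₀ : ℂ)) = ((g.leadingCoeff * x₀ : ℤ) : ℂ) := by
            push_cast; ring
          rw [this]
          exact isIntegral_intCast _
        · have h4 := isIntegral_leadingCoeff_smul g θ hθ
          rw [zsmul_eq_mul] at h4
          exact h4
      · refine mul_ne_zero (by exact_mod_cast hlc) (sub_ne_zero.2 ?_)
        rintro rfl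
        apply hgx
        have h5 : aeval ((x₀ : ℤ) : ℂ) g = ((g.eval x₀ : ℤ) : ℂ) := by
          have := Polynomial.aeval_algebraMap_apply ℂ x₀ g
          simpa using this
        rw [h5] at hθ
        exact_mod_cast hθ
      · have h6 := root_bound g H1 hg0 hgc (by omega) _ hθ
        rw [norm_mul, Complex.norm_intCast]
        have h7 : (|(g.leadingCoeff : ℝ)| : ℝ) ≤ H1 := by
          have := hgc g.natDegree
          exact_mod_cast this
        have h8 : ‖(x₀ : ℂ) - θ‖ ≤ H + 2 * H1 := by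
          refine (norm_sub_le _ _).trans ?_
          rw [Complex.norm_intCast]
          have h9 : |(x₀ : ℝ)| ≤ H := by exact_mod_cast hx₀
          have h10 : ‖θ‖ ≤ 2 * (H1 : ℝ) := by exact_mod_cast h6
          linarith
        have h11 : (H : ℝ) ≤ H1 := by exact_mod_cast hHH1
        have h12 : (0 : ℝ) ≤ H1 := by positivity
        rw [hH2]
        push_cast
        calc |(g.leadingCoeff : ℝ)| * ‖(x₀ : ℂ) - θ‖ ≤ H1 * (H + 2 * H1) :=
              mul_le_mul h7 h8 (norm_nonneg _) h12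
          _ ≤ 4 * (H1 : ℝ) ^ 2 := by nlinarith
    · intro x hx
      obtain ⟨h1, b, hb, hsq⟩ := hs x hx
      refine ⟨h1, b * g.leadingCoeff, mul_ne_zero hb hlc, ?_⟩
      have h2 : (C ((b * g.leadingCoeff : ℤ) : ℚ) * (C (g.leadingCoeff : ℚ) * (C (x₀ : ℚ) - X)) *
          (C (x : ℚ) - X) : ℚ[X]) = C (g.leadingCoeff : ℚ) * C (g.leadingCoeff : ℚ) *
            (C (b : ℚ) * (C (x₀ : ℚ) - X) * (C (x : ℚ) - X)) := by
        push_cast
        rw [map_mul]
        ring
      rw [h2, map_mul, map_mul]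
      exact IsSquare.mul ⟨_, rfl⟩ hsq

end Pool.Agent.Results.MP_d88658_nt.FewLargePoints
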