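import Pool.Agent.K7.H90.RD.Main
import Pool.Agent.K7.H90.DE.Main
import Pool.Agent.K7.H26.BL.Fin
import Pool.Agent.K7.H5.TY.Main
import Pool.Agent.K7.H63.TO.Main
import Pool.Agent.K7.H99.AN.Main
import Pool.Agent.K7.H12.SV.Main
import Pool.Agent.K7.H42.PT.MQ
import Pool.Agent.K7.H89.CL.D
import Pool.Agent.K7.H23.AT.SF
import Pool.Agent.K7.H23.PT.FI

/-!
# The twists of an elliptic curve with exactly one rational point of order two

There is a number `M` such that for every `f ∈ ℤ[X]` of degree three without repeated roots which has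
exactly one rational root, and for all integers `D` outside a set of density zero, all integral points
of the quadratic twist `y² = D³ f(x / D)` of the elliptic curve `y² = f(x)` satisfy `|x| ≤ |D| ^ M`.
The largest coefficient of `D³ f(x / D)` is at least `|D|` in absolute value, so this is the bound of
Q1, with an absolute constant, for 100% of the twists of every such curve.

(helper23, helper5, helper12, helper26, helper42, helper63, helper89, helper90, helper99.)
-/

set_option autoImplicit false

namespace Pool.Agent.Results.MP_d88658_nt.PartialTwoTorsionTwists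

open Polynomial Filter Topology

/-- The set `A` of integers has density zero: the number of the elements of `A` of absolute value at
most `N` divided by `N` tends to zero. -/
def DensityZero (A : Set ℤ) : Prop :=
  Tendsto (fun N : ℕ => (Set.ncard {D : ℤ | D ∈ A ∧ |D| ≤ N} : ℝ) / N) atTop (𝓝 0)

/-- The integers `D ≠ 0` such that the quadratic twist
`y² = D³ f(x / D) = a₃ x³ + a₂ D x² + a₁ D² x + a₀ D³` of `y² = f(x)`, `f = ∑ aᵢ Xⁱ` of degree three,
has an integral point with `|x| > |D| ^ M`. -/
def Large (f : ℤ[X]) (M : ℕ) : Set ℤ :=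
  {D : ℤ | D ≠ 0 ∧ ∃ x y : ℤ, y ^ 2 = f.coeff 3 * x ^ 3 + f.coeff 2 * D * x ^ 2 +
    f.coeff 1 * D ^ 2 * x + f.coeff 0 * D ^ 3 ∧ |D| ^ M < |x|}

/-- **The uniform bound for almost all twists of the elliptic curves with exactly one rational point
of order two.** -/
theorem result : ∃ M : ℕ, ∀ f : ℤ[X], f.natDegree = 3 →
    (f.map (Int.castRingHom ℚ)).Separable → (f.map (Int.castRingHom ℚ)).roots.card = 1 →
    DensityZero (Large f M) := by
  have hpc := Pool.Agent.K7.H23.AT.pc Pool.Agent.K7.H89.CL.stCL
  have han := Pool.Agent.K7.H99.AN.stAN (Pool.Agent.K7.H5.TY.main Pool.Agent.K7.H42.PT.mq)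
    (Pool.Agent.K7.H26.BL.stBL Pool.Agent.K7.H12.SV.main Pool.Agent.K7.H42.PT.mq)
  have hX := Pool.Agent.K7.H23.PT.fi han
    (Pool.Agent.K7.H23.PT.bx Pool.Agent.K7.H89.CL.stCL Pool.Agent.K7.H23.AT.sf)
    (Pool.Agent.K7.H63.TO.stTO hpc Pool.Agent.K7.H23.AT.sf) Pool.Agent.K7.H90.DE.stDE
  obtain ⟨M, hM⟩ := Pool.Agent.K7.H90.RD.rd_both hX
  refine ⟨M, fun f hdeg hsep hroots => ?_⟩
  have h3 := (hM f hdeg hsep hroots).1.tendsto
  have h4 : Pool.Agent.K7.H23.AT.Exc f M = Large f M := by
    unfold Pool.Agent.K7.H23.AT.Exc Large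
    ext D
    refine and_congr Iff.rfl (exists_congr fun x => exists_congr fun y => and_congr ?_ Iff.rfl)
    rw [Pool.Agent.K7.H23.AT.eval_scale, hdeg]
    simp only [Finset.sum_range_succ, Finset.sum_range_zero]
    constructor <;> intro h <;> rw [h] <;> ring
  rw [h4] at h3
  exact h3

end Pool.Agent.Results.MP_d88658_nt.PartialTwoTorsionTwists
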