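import Pool.Agent.K7.H12.BP.Cnt
import Pool.Agent.R482.ST.Star

/-!
# The abscissas which violate the uniform height bound are sparse, and avoid almost all orbits

Let `d ≥ 3` and `C₁ > 2 (d + 1)`. An integer `x` is called violating if it is the abscissa of an integral
point `(x, y)` of SOME curve `y ^ 2 = g(x)`, `g ∈ ℤ[x]` of degree `d` with nonzero discriminant, with
`|x| > M(g) ^ C₁`, that is `h(x) > C₁ h(g)`.

1. There are at most `C X ^ (1 / 2 + (d + 1) / C₁ + ε)` violating integers `x` with `|x| ≤ X`, for all the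
   curves of degree `d` together; the exponent is less than `1`.

2. Let `f_n`, `n = 0, 1, 2, …`, be positive functions on `(a, ∞)`, `a ≥ 0`, such that `f_n(t) / t` is
   nondecreasing, and such that the sequence `f_n(t)` has exponent of convergence at most `τ` for each
   `t > a`: for instance `f_n(t) = t ^ (v_n)` for exponents `v_n ≥ 1` (`τ = 0`), the orbits
   `f_n(t) = g (g (⋯ g (t)))` of any map `g` with `g(t) > t` and `g(t) / t` nondecreasing (`τ = 0`), and
   `f_n(t) = v_n t`. Let `θ < 1`. For all `α > a` outside a set of Hausdorff dimension at most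
   `(1 / 2 + (d + 1) / C₁ + τ) / (1 - θ)` and every `c`, for all but finitely many `n`: for ALL integers
   `x` with `||x| - f_n(α)| ≤ c f_n(α) ^ θ`, ALL integral polynomials `g` of degree `d` with nonzero
   discriminant and all `y` with `y ^ 2 = g(x)` the bound `|x| ≤ M(g) ^ C₁` of the problem holds.

Proof: determinants of Bombieri-Pila type, formed with the monomials `x ^ j`, `x ^ j y`, `j < K`, at the
integral points of a curve `y ^ 2 = g(x)` with `x` in an interval of length `x₀ ^ (1 / 2 - d / (4 K - 2))`,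
uniformly in `g`; summation over all `g`; and the theorem on starshaped windows of the starting library
(`Pool.Agent.R482.ST.Star`). The bound of a determinant of approximate polynomials is also from the
starting library (`Pool.Agent.W803.HZ.DET`).
-/

set_option autoImplicit false

namespace Pool.Agent.Results.MP_d88658_nt.SparseAbscissas

open Polynomial

/-- the largest absolute value `M(g)` of a coefficient -/
def M (g : ℤ[X]) : ℕ := g.support.sup fun i => (g.coeff i).natAbs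

/-- the integers `x` for which there are an integral polynomial `g` of degree `d` without multiple
complex roots and an integer `y` with `y ^ 2 = g(x)` and `|x| > M(g) ^ C₁` -/
def Violating (d : ℕ) (C₁ : ℝ) : Set ℤ :=
  {x | ∃ g : ℤ[X], g.natDegree = d ∧ (g.map (Int.castRingHom ℚ)).Separable ∧
    ∃ y : ℤ, y ^ 2 = g.eval x ∧ (M g : ℝ) ^ C₁ < |(x : ℝ)|}

/-- the functions `f n` are positive on `(a, ∞)`, `a ≥ 0`, and `f n x / x` is nondecreasing there -/
def Starshaped (a : ℝ) (f : ℕ → ℝ → ℝ) : Prop :=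
  0 ≤ a ∧ ∀ n : ℕ, ∀ x y : ℝ, a < x → x ≤ y → 0 < f n x ∧ f n x / x ≤ f n y / y

/-- for each `x > a` the exponent of convergence of the sequence `f n x` is at most `τ` -/
def ExpLe (a : ℝ) (f : ℕ → ℝ → ℝ) (τ : ℝ) : Prop :=
  ∀ x : ℝ, a < x → ∀ t : ℝ, τ < t → Summable (fun n : ℕ => (f n x) ^ (-t))

lemma violating_eq (d : ℕ) (C₁ : ℝ) : Violating d C₁ = K7.H12.BP.Vio d C₁ := by
  ext x
  constructor
  · rintro ⟨g, h1, h2, y, h3, h4⟩
    exact ⟨g, h1, h2, h4, y, h3⟩
  · rintro ⟨g, h1, h2, h4, y, h3⟩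
    exact ⟨g, h1, h2, y, h3, h4⟩

/-- **Theorem.** Let `d ≥ 3` and `C₁ > 2 (d + 1)`.

(1) For every `ε > 0` there is `C` such that at most `C * X ^ (1 / 2 + (d + 1) / C₁ + ε)` integers `x` with
`|x| ≤ X` are violating.

(2) For all starshaped functions `f n` on `(a, ∞)` of exponent of convergence at most `τ ≥ 0` and `θ < 1`
there is a set `E` of Hausdorff dimension at most `(1 / 2 + (d + 1) / C₁ + τ) / (1 - θ)` such that for each
`α > a` outside `E`, each `c` and all but finitely many `n`, for ALL integers `x` with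
`||x| - f n α| ≤ c (f n α) ^ θ`, all integral polynomials `g` of degree `d` without multiple roots and all
integers `y` with `y ^ 2 = g(x)` we have `|x| ≤ M(g) ^ C₁`.

(3) The functions `v n * x`, `v n > 0`, are starshaped on `(0, ∞)`, of exponent `τ` if `v` has exponent of
convergence at most `τ`; the functions `x ^ (v n)`, `v n ≥ 1`, are starshaped on `(1, ∞)`, of exponent `0` if
the sums of `exp (-t v n)` converge for `t > 0`; and the iterates of a map `g` with `g(x) > x` for `x > a`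
and `g(x) / x` nondecreasing are starshaped on `(a, ∞)`, of exponent `0`. -/
theorem result (d : ℕ) (hd : 3 ≤ d) (C₁ : ℝ) (hC₁ : 2 * (d + 1) < C₁) :
    (∀ ε : ℝ, 0 < ε → ∃ C : ℝ, ∀ X : ℝ, 1 ≤ X →
      {x : ℤ | x ∈ Violating d C₁ ∧ |(x : ℝ)| ≤ X}.Finite ∧
      (({x : ℤ | x ∈ Violating d C₁ ∧ |(x : ℝ)| ≤ X}.ncard : ℕ) : ℝ) ≤
        C * X ^ (1 / 2 + (d + 1) / C₁ + ε)) ∧
    (∀ (a : ℝ) (f : ℕ → ℝ → ℝ) (τ θ : ℝ), Starshaped a f → 0 ≤ τ → ExpLe a f τ → θ < 1 →
      ∃ E : Set ℝ, dimH E ≤ ENNReal.ofReal ((1 / 2 + (d + 1) / C₁ + τ) / (1 - θ)) ∧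
        ∀ α : ℝ, a < α → α ∉ E → ∀ c : ℝ, ∃ n₀ : ℕ, ∀ n : ℕ, n₀ ≤ n →
          ∀ x : ℤ, |(|(x : ℝ)|) - f n α| ≤ c * (f n α) ^ θ →
            ∀ g : ℤ[X], g.natDegree = d → (g.map (Int.castRingHom ℚ)).Separable →
              ∀ y : ℤ, y ^ 2 = g.eval x → |(x : ℝ)| ≤ (M g : ℝ) ^ C₁) ∧
    (∀ (v : ℕ → ℝ) (τ : ℝ), (∀ n, 0 < v n) → (∀ t : ℝ, τ < t → Summable (fun n : ℕ => (v n) ^ (-t))) →
      Starshaped 0 (fun n x => v n * x) ∧ ExpLe 0 (fun n x => v n * x) τ) ∧
    (∀ v : ℕ → ℝ, (∀ n, 1 ≤ v n) → (∀ t : ℝ, 0 < t → Summable fun n : ℕ => Real.exp (-(t * v n))) →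
      Starshaped 1 (fun n x => x ^ (v n)) ∧ ExpLe 1 (fun n x => x ^ (v n)) 0) ∧
    (∀ (a : ℝ) (g : ℝ → ℝ), 0 ≤ a → (∀ x y : ℝ, a < x → x ≤ y → g x / x ≤ g y / y) → (∀ x : ℝ, a < x → x < g x) →
      Starshaped a (fun n x => g^[n] x) ∧ ExpLe a (fun n x => g^[n] x) 0) := by
  have hd1 : (3 : ℝ) ≤ d := by exact_mod_cast hd
  have hC0 : 0 < C₁ := by linarith
  refine ⟨fun ε hε => ?_, fun a f τ θ hf hτ hE hθ => ?_, Pool.Agent.R482.ST.ex_mul,
    Pool.Agent.R482.ST.ex_pow, Pool.Agent.R482.ST.ex_orbit⟩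
  · rw [violating_eq]
    exact K7.H12.BP.count d (by omega) hC₁ ε hε
  · obtain ⟨E, hE1, hE2⟩ := Pool.Agent.R482.ST.star_windows (Violating d C₁)
      (fun x : ℤ => |(x : ℝ)|) (s := 1 / 2 + (d + 1) / C₁) hf.1 hf.2 hE (by positivity) hτ hθ
      (fun ε hε => by
        rw [violating_eq]
        exact K7.H12.BP.count d (by omega) hC₁ ε hε)
    refine ⟨E, hE1, fun α hα hαE c => ?_⟩
    obtain ⟨n₀, hn₀⟩ := hE2 α hα hαE c
    refine ⟨n₀, fun n hn x hx g hg hgs y hy => ?_⟩
    by_contra hcon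
    exact absurd hx (not_le.2 (hn₀ n hn x ⟨g, hg, hgs, y, hy, not_le.1 hcon⟩))

end Pool.Agent.Results.MP_d88658_nt.SparseAbscissas
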